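import Pool.Agent.W425.GN.Defs

/-!
# Project GN, part S2: specialisation of the negation of `Bad`
-/

set_option autoImplicit false

namespace Pool.Agent.W486.GN

open MvPolynomial Pool.Agent.W425.GN

section
variable {n : ℕ} {R : Type} [CommRing R]

lemma act_add (P Q : MvPolynomial (Sy n) R) (s : ℕ) (φ : MvPolynomial (Fin n) R) :
    act (P + Q) s φ = act P s φ + act Q s φ := map_add (actL s φ) P Q

lemma act_sub (P Q : MvPolynomial (Sy n) R) (s : ℕ) (φ : MvPolynomial (Fin n) R) :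
    act (P - Q) s φ = act P s φ - act Q s φ := map_sub (actL s φ) P Q

lemma act_smul (c : R) (P : MvPolynomial (Sy n) R) (s : ℕ) (φ : MvPolynomial (Fin n) R) :
    act (c • P) s φ = c • act P s φ := map_smul (actL s φ) c P

lemma act_zero (s : ℕ) (φ : MvPolynomial (Fin n) R) :
    act (0 : MvPolynomial (Sy n) R) s φ = 0 := map_zero (actL s φ)

lemma act_lin (hA1 : TaskA1) (a : R) (Q : MvPolynomial (Sy n) R) (s : ℕ)
    (φ : MvPolynomial (Fin n) R) :
    act ((X none - C a) * Q) s φ = C ((s : R) - a) * act Q s φ := by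
  have h : (X none - C a) * Q = ls Q - a • Q := by
    rw [ls, sub_mul, smul_eq_C_mul]
  rw [h, act_sub, act_smul, (hA1 Q s φ).2.1, smul_eq_C_mul, ← sub_mul, map_sub, map_natCast]

lemma act_pow (hA1 : TaskA1) (a : R) (k : ℕ) (Q : MvPolynomial (Sy n) R) (s : ℕ)
    (φ : MvPolynomial (Fin n) R) :
    act ((X none - C a) ^ k * Q) s φ = C (((s : R) - a) ^ k) * act Q s φ := by
  induction k with
  | zero => simp
  | succ k ih =>
    rw [pow_succ', mul_assoc, act_lin hA1, ih, ← mul_assoc, ← map_mul, ← pow_succ']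

lemma act_uop (hA1 : TaskA1) (a : R) (k : ℕ) (s : ℕ) (φ : MvPolynomial (Fin n) R) :
    act ((X none - C a) ^ k : MvPolynomial (Sy n) R) s φ = C (((s : R) - a) ^ k) * φ := by
  have h := act_pow hA1 a k (1 : MvPolynomial (Sy n) R) s φ
  rw [mul_one, (hA1 (1 : MvPolynomial (Sy n) R) s φ).1] at h
  exact h

/-- the left ideal attached to `Bad` -/
noncomputable def BI (f : MvPolynomial (Fin n) R) (α : R) (m : ℕ) :
    Submodule R (MvPolynomial (Sy n) R) where
  carrier := {W | ∃ (P Q : MvPolynomial (Sy n) R) (s0 : ℕ), ∀ s ≥ s0,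
    act W s (f ^ s) = act P s (f ^ (s + 1)) + C (((s : R) - α) ^ (m + 1)) * act Q s (f ^ s)}
  add_mem' := by
    rintro W W' ⟨P, Q, s0, h⟩ ⟨P', Q', s0', h'⟩
    refine ⟨P + P', Q + Q', max s0 s0', fun s hs => ?_⟩
    rw [act_add, act_add, act_add, h s (le_trans (le_max_left _ _) hs),
      h' s (le_trans (le_max_right _ _) hs)]
    ring
  zero_mem' := ⟨0, 0, 0, fun s _ => by simp [act_zero]⟩
  smul_mem' := by
    rintro c W ⟨P, Q, s0, h⟩
    refine ⟨c • P, c • Q, s0, fun s hs => ?_⟩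
    rw [act_smul, act_smul, act_smul, h s hs, smul_add, mul_smul_comm]

lemma mem_BI (f : MvPolynomial (Fin n) R) (α : R) (m : ℕ) (W : MvPolynomial (Sy n) R) :
    W ∈ BI f α m ↔ ∃ (P Q : MvPolynomial (Sy n) R) (s0 : ℕ), ∀ s ≥ s0,
    act W s (f ^ s) = act P s (f ^ (s + 1)) + C (((s : R) - α) ^ (m + 1)) * act Q s (f ^ s) :=
  Iff.rfl

lemma bad_iff (hA1 : TaskA1) (f : MvPolynomial (Fin n) R) (α : R) (m : ℕ) :
    Bad f α m ↔ ((X none - C α) ^ m : MvPolynomial (Sy n) R) ∈ BI f α m := by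
  rw [mem_BI]
  simp only [act_uop hA1]
  rfl

lemma BI_stab (hA1 : TaskA1) (f : MvPolynomial (Fin n) R) (α : R) (m : ℕ) :
    Stab (BI f α m) := by
  rintro W ⟨P, Q, s0, h⟩
  refine ⟨⟨ls P, ls Q, s0, fun s hs => ?_⟩, fun i => ⟨⟨lx i P, lx i Q, s0, fun s hs => ?_⟩,
    ⟨ld i P, ld i Q, s0, fun s hs => ?_⟩⟩⟩
  · rw [(hA1 W s _).2.1, (hA1 P s _).2.1, (hA1 Q s _).2.1, h s hs]; ring
  · rw [(hA1 W s _).2.2.1 i, (hA1 P s _).2.2.1 i, (hA1 Q s _).2.2.1 i, h s hs]; ring
  · rw [(hA1 W s _).2.2.2.1 i, (hA1 P s _).2.2.2.1 i, (hA1 Q s _).2.2.2.1 i, h s hs, map_add,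
      pderiv_C_mul]

end

section
variable {n : ℕ} {R K : Type} [CommRing R] [Field K]

/-- preimage of a submodule under the extension of scalars -/
noncomputable def MR (ι : R →+* K) (I : Submodule K (MvPolynomial (Sy n) K)) :
    Submodule R (MvPolynomial (Sy n) R) where
  carrier := {W | MvPolynomial.map ι W ∈ I}
  add_mem' := by
    intro a b ha hb
    show MvPolynomial.map ι (a + b) ∈ I
    rw [map_add]; exact I.add_mem ha hb
  zero_mem' := by
    show MvPolynomial.map ι 0 ∈ I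
    rw [map_zero]; exact I.zero_mem
  smul_mem' := by
    intro c a ha
    show MvPolynomial.map ι (c • a) ∈ I
    rw [smul_eq_C_mul, map_mul, map_C, ← smul_eq_C_mul]; exact I.smul_mem _ ha

lemma mem_MR (ι : R →+* K) (I : Submodule K (MvPolynomial (Sy n) K))
    (W : MvPolynomial (Sy n) R) : W ∈ MR ι I ↔ MvPolynomial.map ι W ∈ I := Iff.rfl

lemma MR_stab (ι : R →+* K) (I : Submodule K (MvPolynomial (Sy n) K)) (hI : Stab I) :
    Stab (MR ι I) := by
  intro P hP
  obtain ⟨h1, h2⟩ := hI _ hP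
  refine ⟨?_, fun i => ⟨?_, ?_⟩⟩
  · rw [mem_MR]
    have : MvPolynomial.map ι (ls P) = ls (MvPolynomial.map ι P) := by
      rw [ls, ls, map_mul, map_X]
    rw [this]; exact h1
  · rw [mem_MR]
    have : MvPolynomial.map ι (lx i P) = lx i (MvPolynomial.map ι P) := by
      rw [lx, lx, map_mul, map_X]
    rw [this]; exact (h2 i).1
  · rw [mem_MR]
    have : MvPolynomial.map ι (ld i P) = ld i (MvPolynomial.map ι P) := by
      rw [ld, ld, map_add, map_mul, map_X, pderiv_map]
    rw [this]; exact (h2 i).2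

lemma lift_coeffs (ι : R →+* K) (P : MvPolynomial (Sy n) K)
    (h : ∀ m ∈ P.support, ∃ y, ι y = coeff m P) : ∃ P', MvPolynomial.map ι P' = P := by
  classical
  choose! y hy using h
  refine ⟨∑ m ∈ P.support, monomial m (y m), ?_⟩
  rw [map_sum]
  conv_rhs => rw [← support_sum_monomial_coeff P]
  refine Finset.sum_congr rfl fun m hm => ?_
  rw [map_monomial, hy m hm]

end

open Classical in
theorem s2 : TaskS2 := by
  intro hSpec hG1 hA1 hA2 hA3 hA4 n K _ f α m hbad
  obtain ⟨B, G, hGI, hGB, hGdiv⟩ := hG1 (BI f α m) (BI_stab hA1 f α m)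
  obtain ⟨Qu, hQuB, hQu⟩ := hGdiv (RingHom.id K) Function.injective_id
    (fun P _ => ⟨P, MvPolynomial.map_id P⟩) (BI f α m) (BI_stab hA1 f α m)
    (fun P' hP' => by rw [MvPolynomial.map_id] at hP'; exact hGI _ hP')
    ((X none - C α) ^ m)
  have hQu0 : Qu ≠ 0 := by
    rintro rfl
    rw [sub_zero] at hQu
    exact hbad ((bad_iff hA1 f α m).2 hQu)
  obtain ⟨m0, hm0⟩ := MvPolynomial.ne_zero_iff.1 hQu0
  obtain ⟨Z1, hZ1⟩ := hSpec f
  refine ⟨Z1 ∪ (G.biUnion fun P => P.support.image fun k => coeff k P) ∪ {(coeff m0 Qu)⁻¹}, ?_⟩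
  intro R _ ι hι hZ fR hfR αR hαR κ _ _ e he hf0 hB
  have hZ1' : ∀ z ∈ Z1, ∃ y, ι y = z := fun z hz => hZ z (by
    rw [Finset.mem_union, Finset.mem_union]; exact Or.inl (Or.inl hz))
  have hZ2 : ∀ P ∈ G, ∃ P', MvPolynomial.map ι P' = P := by
    intro P hP
    refine lift_coeffs ι P fun k hk => hZ _ ?_
    rw [Finset.mem_union, Finset.mem_union]
    refine Or.inl (Or.inr (Finset.mem_biUnion.2 ⟨P, hP, Finset.mem_image.2 ⟨k, hk, rfl⟩⟩))
  obtain ⟨y0, hy0⟩ := hZ (coeff m0 Qu)⁻¹ (by
    rw [Finset.mem_union]; exact Or.inr (Finset.mem_singleton_self _))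
  have hinj : Function.Injective (MvPolynomial.map ι : MvPolynomial (Sy n) R →+* _) :=
    MvPolynomial.map_injective ι hι
  have hdiv := hGdiv ι hι hZ2 (MR ι (BI f α m)) (MR_stab ι _ (BI_stab hA1 f α m))
    (fun P' hP' => hGI _ hP')
  -- the quotient of `(s - α) ^ m`
  have hmapu : MvPolynomial.map ι ((X none - C αR) ^ m : MvPolynomial (Sy n) R) =
      (X none - C α) ^ m := by
    rw [map_pow, map_sub, map_X, map_C, hαR]
  obtain ⟨QR, hQRB, hQR⟩ := hdiv ((X none - C αR) ^ m)
  have hQReq : MvPolynomial.map ι QR = Qu := by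
    refine sub_eq_zero.1 (hGB _ ?_ ?_)
    · rw [mem_MR, map_sub, hmapu] at hQR
      have : MvPolynomial.map ι QR - Qu = ((X none - C α) ^ m - Qu) -
          ((X none - C α) ^ m - MvPolynomial.map ι QR) := by ring
      rw [this]
      exact Submodule.sub_mem _ hQu hQR
    · intro k hk
      by_contra hkB
      rw [mem_support_iff, coeff_sub, coeff_map] at hk
      have h1 : coeff k QR = 0 := by
        by_contra h; exact hkB (hQRB k (mem_support_iff.2 h))
      have h2 : coeff k Qu = 0 := by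
        by_contra h; exact hkB (hQuB k (mem_support_iff.2 h))
      rw [h1, h2, map_zero, sub_zero] at hk
      exact hk rfl
  -- the identity over `R`
  obtain ⟨Pb, Qb, s0, hPQ⟩ := hB
  obtain ⟨P, rfl⟩ := MvPolynomial.map_surjective e he Pb
  obtain ⟨Q, rfl⟩ := MvPolynomial.map_surjective e he Qb
  obtain ⟨L, hL⟩ := hA2 fR
  obtain ⟨-, -, hmap, hsy, hsy0⟩ := @hA3 n R _
  set W : MvPolynomial (Sy n) R := (X none - C αR) ^ m - L P - (X none - C αR) ^ (m + 1) * Q
    with hWdef
  have hWact : ∀ s, act W s (fR ^ s) = C (((s : R) - αR) ^ m) * fR ^ s - act P s (fR ^ (s + 1)) -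
      C (((s : R) - αR) ^ (m + 1)) * act Q s (fR ^ s) := by
    intro s
    rw [hWdef, act_sub, act_sub, act_uop hA1, act_pow hA1, hL, ← pow_succ']
  have hWe : ∀ s ≥ s0, MvPolynomial.map e (act W s (fR ^ s)) = 0 := by
    intro s hs
    have h1 := hPQ s hs
    have h2 : ∀ k : ℕ, MvPolynomial.map e (C (((s : R) - αR) ^ k) : MvPolynomial (Fin n) R) =
        C (((s : κ) - e αR) ^ k) := fun k => by
      rw [MvPolynomial.map_C]; congr 1; rw [map_pow, map_sub, map_natCast]
    have h3 : ∀ k : ℕ, MvPolynomial.map e (fR ^ k) = (MvPolynomial.map e fR) ^ k := fun k =>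
      map_pow _ _ _
    rw [hWact, map_sub, map_sub, map_mul, map_mul, h2, h2, hmap, hmap, h3, h3, h1]
    ring
  obtain ⟨d, w, hw⟩ := hA4 fR W
  have hwe : w.map (MvPolynomial.map e) = 0 := by
    refine Polynomial.eq_zero_of_infinite_isRoot _ ?_
    have hsub : (Nat.cast : ℕ → MvPolynomial (Fin n) κ) '' {s | s0 ≤ s} ⊆
        {x | (w.map (MvPolynomial.map e)).IsRoot x} := by
      rintro _ ⟨s, hs, rfl⟩
      show (w.map (MvPolynomial.map e)).eval (s : MvPolynomial (Fin n) κ) = 0
      have h1 := congrArg (MvPolynomial.map e) (hw s)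
      rw [map_mul, hWe s hs, mul_zero, map_mul, ← Polynomial.eval_natCast_map, map_pow] at h1
      exact (mul_eq_zero.1 h1.symm).resolve_right (pow_ne_zero _ hf0)
    refine Set.Infinite.mono hsub ?_
    exact (Set.Ici_infinite s0).image (Nat.cast_injective.injOn)
  have hdom : IsDomain R := hι.isDomain ι
  have hfR0 : fR ≠ 0 := by
    rintro rfl
    exact hf0 (map_zero _)
  set w2 : Polynomial (MvPolynomial (Fin n) R) :=
    w.comp (Polynomial.X + Polynomial.C (d : MvPolynomial (Fin n) R)) with hw2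
  have hw2e : w2.map (MvPolynomial.map e) = 0 := by
    rw [hw2, Polynomial.map_comp, hwe, Polynomial.zero_comp]
  have hact2 : ∀ s, act W (s + d) (fR ^ (s + d)) = act (sy w2) s (fR ^ s) := by
    intro s
    rw [hsy]
    have h1 := hw (s + d)
    have h2 : w2.eval (s : MvPolynomial (Fin n) R) =
        w.eval ((s + d : ℕ) : MvPolynomial (Fin n) R) := by
      rw [hw2, Polynomial.eval_comp]
      simp
    rw [h2]
    refine mul_left_cancel₀ (pow_ne_zero d hfR0) ?_
    rw [h1, pow_add]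
    ring
  obtain ⟨T, hTe, s1, hT⟩ := hZ1 ι hι hZ1' fR hfR e d W (sy w2) (hsy0 e w2 hw2e)
    ⟨0, fun s _ => hact2 s⟩
  -- `u - T` is in the ideal
  have hTM : ((X none - C αR) ^ m - T) ∈ MR ι (BI f α m) := by
    rw [mem_MR, mem_BI]
    refine ⟨MvPolynomial.map ι P, MvPolynomial.map ι Q, s1, fun s hs => ?_⟩
    have h1 : act ((X none - C αR) ^ m - T) s (fR ^ s) = act P s (fR ^ (s + 1)) +
        C (((s : R) - αR) ^ (m + 1)) * act Q s (fR ^ s) := by
      rw [act_sub, act_uop hA1, ← hT s hs, hWact]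
      ring
    have h2 := congrArg (MvPolynomial.map ι) h1
    have h3 : ∀ k : ℕ, MvPolynomial.map ι (C (((s : R) - αR) ^ k) : MvPolynomial (Fin n) R) =
        C (((s : K) - α) ^ k) := fun k => by
      rw [MvPolynomial.map_C]; congr 1; rw [map_pow, map_sub, map_natCast, hαR]
    have h4 : ∀ k : ℕ, MvPolynomial.map ι (fR ^ k) = f ^ k := fun k => by
      rw [map_pow, hfR]
    rw [hmap, map_add, map_mul, h3, hmap, hmap, h4, h4] at h2
    exact h2
  -- decomposition of `T`
  choose Qm hQmB hQm using fun k : Sy n →₀ ℕ => hdiv (monomial k 1)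
  set QT : MvPolynomial (Sy n) R := ∑ k ∈ T.support, coeff k T • Qm k with hQT
  have hQTB : ∀ k, k ∉ B → coeff k QT = 0 := by
    intro k hk
    rw [hQT, coeff_sum]
    refine Finset.sum_eq_zero fun j _ => ?_
    rw [coeff_smul]
    have : coeff k (Qm j) = 0 := by
      by_contra h; exact hk (hQmB j k (mem_support_iff.2 h))
    rw [this, smul_zero]
  have hQTM : T - QT ∈ MR ι (BI f α m) := by
    have h1 : T - QT = ∑ k ∈ T.support, coeff k T • (monomial k 1 - Qm k) := by
      have h2 : T = ∑ k ∈ T.support, monomial k (coeff k T) :=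
        (support_sum_monomial_coeff T).symm
      calc T - QT = ∑ k ∈ T.support, monomial k (coeff k T) -
            ∑ k ∈ T.support, coeff k T • Qm k := by rw [← h2]
        _ = _ := by
          rw [← Finset.sum_sub_distrib]
          refine Finset.sum_congr rfl fun k _ => ?_
          rw [smul_sub, smul_monomial, smul_eq_mul, mul_one]
    rw [h1]
    exact Submodule.sum_mem _ fun k _ => Submodule.smul_mem _ _ (hQm k)
  have hQTe : ∀ k, e (coeff k QT) = 0 := by
    intro k
    rw [hQT, coeff_sum, map_sum]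
    refine Finset.sum_eq_zero fun j _ => ?_
    have h1 : e (coeff j T) = 0 := by
      rw [← coeff_map, hTe, coeff_zero]
    rw [coeff_smul, smul_eq_mul, map_mul, h1, zero_mul]
  have hQRQT : QR = QT := by
    refine hinj (sub_eq_zero.1 (hGB _ ?_ ?_))
    · have h1 : QR - QT ∈ MR ι (BI f α m) := by
        have : QR - QT = ((X none - C αR) ^ m - T) + (T - QT) -
            ((X none - C αR) ^ m - QR) := by ring
        rw [this]
        exact Submodule.sub_mem _ (Submodule.add_mem _ hTM hQTM) hQR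
      rw [mem_MR, map_sub] at h1
      exact h1
    · intro k hk
      by_contra hkB
      rw [mem_support_iff, coeff_sub, coeff_map, coeff_map, hQTB k hkB] at hk
      have h1 : coeff k QR = 0 := by
        by_contra h; exact hkB (hQRB k (mem_support_iff.2 h))
      rw [h1, map_zero, sub_zero] at hk
      exact hk rfl
  have h1 : coeff m0 QR * y0 = 1 := by
    apply hι
    rw [map_mul, hy0, ← coeff_map, hQReq, mul_inv_cancel₀ hm0, map_one]
  have h2 := congrArg e h1
  rw [map_mul, hQRQT, hQTe, zero_mul, map_one] at h2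
  exact zero_ne_one h2

end Pool.Agent.W486.GN
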